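import Mathlib
import Pool.Agent.Lib.MP_a0e11f_co.EvFin3
import Pool.Agent.Lib.MP_a0e11f_co.EvGamma
import Pool.Agent.Lib.MP_a0e11f_co.Uniq

/-!
# MP_a0e11f_co: every coefficient of index `i ≥ 1` is positive in a polynomial range of `n`

Let `n ≥ 2` and take the elements of even length (`r = 0`) or of odd length (`r = 1`) of `D_n`.
In the two-sided gamma expansion of degree `n` of `TSD_n^±` all coefficients `γ_{ij}` with `i ≥ 1`
and `(4 (i + j + 1))^8 ≤ n` are positive.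
-/

set_option autoImplicit false

open Finset

namespace Pool.Agent.Results.MP_a0e11f_co.EventuallyPositive

open Pool.Agent.TSDG MvPolynomial

theorem result (n r : ℕ) (hn : 2 ≤ n) (hr : r < 2) :
    ∃ γ : ℕ → ℕ → ℤ,
      (TSD n r (X 0) (X 1) : MvPolynomial (Fin 2) ℝ) =
        gexp n (fun i j => C ((γ i j : ℤ) : ℝ)) (X 0) (X 1) ∧
      (∀ δ : ℕ → ℕ → ℝ, (TSD n r (X 0) (X 1) : MvPolynomial (Fin 2) ℝ) =
          gexp n (fun i j => C (δ i j)) (X 0) (X 1) →
        ∀ i j, 2 * i + j ≤ n → δ i j = γ i j) ∧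
      ∀ i j : ℕ, 1 ≤ i → (4 * (i + j + 1)) ^ 8 ≤ n → 2 * i + j ≤ n ∧ 0 < γ i j := by
  obtain ⟨γ, h3, h4⟩ := gamma_ge n r hn
  refine ⟨γ, h3, ?_, ?_⟩
  · intro δ hδ i j hij
    have key : ∀ s t : ℂ, gexp n (fun i j => ((δ i j : ℝ) : ℂ) - ((γ i j : ℝ) : ℂ)) s t = 0 := by
      intro s t
      have h5 := congrArg (eval₂Hom Complex.ofRealHom ![s, t]) (h3.symm.trans hδ)
      rw [gexp_hom, gexp_hom] at h5
      simp only [eval₂Hom_C, eval₂Hom_X', Matrix.cons_val_zero, Matrix.cons_val_one,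
        Complex.ofRealHom_eq_coe] at h5
      rw [gexp_sub, h5, sub_self]
    have h6 := uniq key i j hij
    rw [sub_eq_zero] at h6
    exact_mod_cast h6
  · intro i j hi hs
    refine ⟨?_, final2 i j r n hi hr hs γ h4⟩
    have h8 : 4 * (i + j + 1) ≤ n := by
      calc 4 * (i + j + 1) = (4 * (i + j + 1)) ^ 1 := (pow_one _).symm
        _ ≤ (4 * (i + j + 1)) ^ 8 := Nat.pow_le_pow_right (by omega) (by omega)
        _ ≤ n := hs
    omega

end Pool.Agent.Results.MP_a0e11f_co.EventuallyPositive
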