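import Mathlib
import Pool.Agent.Lib.MP_a0e11f_co.Uniq

/-!
# MP_a0e11f_co: the first two rows of the two-sided gamma expansions in type D

Let `n ≥ 2` and let `TSD_n^±(s,t)` be the generating polynomials of the pairs
`(ides_D, des_D)` over the elements of even and of odd length of `D_n`. We prove:

* both have a two-sided gamma expansion of degree `n` with integer coefficients `γ_{ij}`, and it
  is the only expansion with real coefficients;
* `γ_{0j} = 1` for `j = 0` in the even case, and `γ_{0j} = 0` otherwise;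
* `γ_{1j}` is the number of elements with one inverse descent and `j + 1` descents, minus `n` for
  `j = 0` in the even case;
* for `n ≥ 3` all `γ_{0j}` and `γ_{1j}` are nonnegative; for `n = 2` the even part has
  `γ_{10} = -2`.
-/

set_option autoImplicit false

open Finset

namespace Pool.Agent.Results.MP_a0e11f_co.FirstRows

open Pool.Agent.TSDG MvPolynomial

theorem result (n r : ℕ) (hn : 2 ≤ n) :
    ∃ γ : ℕ → ℕ → ℤ,
      (TSD n r (X 0) (X 1) : MvPolynomial (Fin 2) ℝ) =
        gexp n (fun i j => C ((γ i j : ℤ) : ℝ)) (X 0) (X 1) ∧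
      (∀ δ : ℕ → ℕ → ℝ, (TSD n r (X 0) (X 1) : MvPolynomial (Fin 2) ℝ) =
          gexp n (fun i j => C (δ i j)) (X 0) (X 1) →
        ∀ i j, 2 * i + j ≤ n → δ i j = γ i j) ∧
      (∀ j, γ 0 j = if r = 0 ∧ j = 0 then 1 else 0) ∧
      (∀ j, j + 2 ≤ n → γ 1 j =
        (((DD n r).filter fun w => ides w = 1 ∧ des w = j + 1).card : ℤ) -
          (if r = 0 ∧ j = 0 then (n : ℤ) else 0)) ∧
      (3 ≤ n → (∀ j, 0 ≤ γ 0 j) ∧ ∀ j, j + 2 ≤ n → 0 ≤ γ 1 j) ∧
      (n = 2 → r = 0 → γ 1 0 = -2) := by
  obtain ⟨γ, h0, h1, h2⟩ := comb_TSD hn r (X 0 : MvPolynomial (Fin 2) ℝ) (X 1)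
  simp only at h0 h1
  have h3 : (TSD n r (X 0) (X 1) : MvPolynomial (Fin 2) ℝ) =
      gexp n (fun i j => C ((γ i j : ℤ) : ℝ)) (X 0) (X 1) := by
    rw [h2]
    unfold gsum gexp mono
    refine sum_congr rfl fun i _ => sum_congr rfl fun j _ => ?_
    simp only [map_intCast]
  have h4 : ∀ j, j + 2 ≤ n → γ 1 j =
      (((DD n r).filter fun w => ides w = 1 ∧ des w = j + 1).card : ℤ) -
        (if r = 0 ∧ j = 0 then (n : ℤ) else 0) := by
    intro j hj
    rw [h1 j]
    have e : ((DD n r).filter fun w => (ides w ≤ des w ∧ ides w + des w ≤ n) ∧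
        (ides w = 1 ∧ des w = j + 1)) =
        (DD n r).filter fun w => ides w = 1 ∧ des w = j + 1 := by
      apply filter_congr
      intro w _
      constructor
      · exact fun h => h.2
      · intro h
        exact ⟨⟨by omega, by omega⟩, h⟩
    rw [e]
  refine ⟨γ, h3, ?_, h0, h4, ?_, ?_⟩
  · intro δ hδ i j hij
    have key : ∀ s t : ℂ, gexp n (fun i j => ((δ i j : ℝ) : ℂ) - ((γ i j : ℝ) : ℂ)) s t = 0 := by
      intro s t
      have h5 := congrArg (eval₂Hom Complex.ofRealHom ![s, t]) (h3.symm.trans hδ)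
      rw [gexp_hom, gexp_hom] at h5
      simp only [eval₂Hom_C, eval₂Hom_X', Matrix.cons_val_zero, Matrix.cons_val_one,
        Complex.ofRealHom_eq_coe] at h5
      rw [gexp_sub, h5, sub_self]
    have h6 := uniq key i j hij
    rw [sub_eq_zero] at h6
    exact_mod_cast h6
  · intro hn3
    refine ⟨fun j => ?_, fun j hj => ?_⟩
    · rw [h0 j]; split_ifs <;> norm_num
    · rw [h4 j hj]
      by_cases hj0 : r = 0 ∧ j = 0
      · obtain ⟨rfl, rfl⟩ := hj0
        have h5 := count n hn3
        rw [if_pos ⟨rfl, rfl⟩]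
        have h6 : ((n : ℕ) : ℤ) ≤ (((DD n 0).filter fun w => ides w = 1 ∧ des w = 1).card : ℤ) := by
          exact_mod_cast h5
        simp only [Nat.zero_add]
        omega
      · rw [if_neg hj0]; simp
  · rintro rfl rfl
    rw [h4 0 le_rfl]
    have h5 : ((DD 2 0).filter fun w => ides w = 1 ∧ des w = 0 + 1).card = 0 := by
      decide +kernel
    rw [h5]
    norm_num

end Pool.Agent.Results.MP_a0e11f_co.FirstRows
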